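import Pool.Agent.U10.Q.A
import Pool.Agent.U10.Q.B
import Pool.Agent.U10.Q.C

/-!
# At least `κ q ^ (2 / 3) / log q` odd characters modulo `q` have `L(χ, 0)` prime to `p`

There are absolute constants `κ > 0` and `Q` such that for all primes `q ≥ Q` and all odd primes `p ≠ q`
which do not divide `q - 1` the number of the odd characters `χ` modulo `q` for which
`L(χ, 0) = - (1 / q) ∑ k χ(k)` is a unit at `P` is at least `κ q ^ (2 / 3) / log q`; here `P` is any maximal
ideal above `p` of the ring of all algebraic integers.

The known lower bound has the exponent `1 / 2`; the bound here does not depend on `p`.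

For a prime `q` with `p ∣ q - 1` the characters which differ by a character of `p`-power order have
the same reduction, and there is no such bound in general: if `q = 2 * 3 ^ k + 1` is prime, `q > 3`, then all
odd characters modulo `q` have modulo 3 the reduction of the quadratic one, and their number is `0` or
`(q - 1) / 2`, according to whether 3 divides the class number of `ℚ(√-q)` or not.

Proof.  Let `f(x) = 2 x - q` for `0 < x < q`.  The values `∑ f(x) χ(x)` for the odd `χ` are, up to the factor
`q - 1`, the eigenvalues of the matrix `(f(a b mod q))`, `a`, `b` modulo `q`, which can be diagonalised over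
the residue field of `P`, as `p` does not divide `q - 1`.  So the number of the good characters is at
least the rank of this matrix over the residue field.  As `f(a b) - f(a (b - 1)) = 2 (a - q j)` with
`j = ⌊a b / q⌋ - ⌊a (b - 1) / q⌋`, the rank of a matrix of such jumps `j` is at most one more (package A).
Now `j = 0` for all `a < c` and `j = 1` for `a = c` if `b` is suitable, when `c` is the smallest number whose
multiples jump at `b`.  By the theory of Farey fractions such a `b` exists for the numbers `c` which divide
`q + v s` with `1 ≤ v ≤ w`, `w = (q + v s) / c`, `c s ≤ q`, `s < c` (package B): these give a triangular matrix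
with ones on the diagonal.  The number of such `c` is at least a constant times `q ^ (2 / 3) / log q`, with prime
numbers `v` of size `q ^ (1 / 3)` and arbitrary `w` of this size, by Chebyshev's bound (package C).

The packages were proved by helper332 (A), helper411 (B) and helper624 (C).
-/

namespace Pool.Agent.Results.MP_53226a_nt.ExponentTwoThirds

theorem result :
    ∃ κ : ℝ, 0 < κ ∧ ∃ Q : ℕ, ∀ p q : ℕ, p.Prime → p ≠ 2 → q.Prime → q ≠ p → ¬ p ∣ q - 1 →
      Q ≤ q → ∀ P : Ideal (integralClosure ℤ ℂ), P.IsMaximal → ((p : integralClosure ℤ ℂ) ∈ P) →
        κ * (q : ℝ) ^ ((2 : ℝ) / 3) / Real.log q ≤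
          (({χ : DirichletCharacter ℂ q |
              χ (-1 : ZMod q) = -1 ∧
              ∃ a b : integralClosure ℤ ℂ, a ∉ P ∧ b ∉ P ∧
                (b : ℂ) * (-(1 / (q : ℂ)) *
                  ∑ k ∈ Finset.Ico 1 q, (k : ℂ) * χ (k : ZMod q)) = (a : ℂ)}
            : Set (DirichletCharacter ℂ q)).ncard : ℝ) :=
  Pool.Agent.U10.Q.assembly Pool.Agent.U10.Q.A.proof Pool.Agent.U10.Q.B.proof
    Pool.Agent.U10.Q.C.proof

end Pool.Agent.Results.MP_53226a_nt.ExponentTwoThirds
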